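import Pool.Agent.Y727.PSP.Stm

/-!
# The zero-sum theorem of van Emde Boas-Kruyswijk and Meshulam (job DAV of `Pool.Agent.Y727.PSP`)
-/

set_option autoImplicit false

namespace Pool.Agent.Y37.PSP

open Finset Pool.Agent.Y727.PSP

theorem map_sum_addChar {A ι : Type} [AddCommGroup A] (ψ : AddChar A ℂ) (f : ι → A)
    (S : Finset ι) : ψ (∑ i ∈ S, f i) = ∏ i ∈ S, ψ (f i) := by
  classical
  induction S using Finset.induction_on with
  | empty => rw [sum_empty, prod_empty, AddChar.map_zero_eq_one]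
  | insert j S hj ih => rw [sum_insert hj, prod_insert hj, AddChar.map_add_eq_mul, ih]

/-- greedy choice of the roots of unity -/
theorem greedy {A : Type} [AddCommGroup A] [Fintype A] (m : ℕ) (hm : 1 ≤ m)
    (hA : ∀ a : A, m • a = 0) {ι : Type} (g : ι → A) (I : Finset ι) :
    ∃ z : ι → ℂ, (∀ i, z i ^ m = 1) ∧ ∃ Ψ : Finset (AddChar A ℂ),
      (∀ ψ : AddChar A ℂ, (∀ i ∈ I, ψ (g i) ≠ z i) → ψ ∈ Ψ) ∧
      (Ψ.card : ℝ) ≤ Fintype.card A * (1 - 1 / (m : ℝ)) ^ I.card := by
  classical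
  have hmpos : (0 : ℝ) < m := by exact_mod_cast hm
  induction I using Finset.induction_on with
  | empty =>
    refine ⟨fun _ => 1, fun i => one_pow m, univ, fun ψ _ => mem_univ ψ, ?_⟩
    rw [card_empty, pow_zero, mul_one]
    have h1 : Fintype.card (AddChar A ℂ) = Fintype.card A := AddChar.card_eq
    rw [← h1, Finset.card_univ]
  | insert j I hj ih =>
    obtain ⟨z, hz, Ψ, hΨ, hcard⟩ := ih
    obtain ⟨T, hT⟩ : ∃ T : Finset ℂ, T = (Polynomial.nthRoots m (1 : ℂ)).toFinset := ⟨_, rfl⟩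
    have hmemT : ∀ x : ℂ, x ∈ T ↔ x ^ m = 1 := by
      intro x
      rw [hT, Multiset.mem_toFinset, Polynomial.mem_nthRoots (by omega)]
    have hTm : T.card ≤ m := by
      rw [hT]
      exact (Multiset.toFinset_card_le _).trans (Polynomial.card_nthRoots m (1 : ℂ))
    have hmaps : ∀ ψ ∈ Ψ, ψ (g j) ∈ T := by
      intro ψ _
      rw [hmemT, ← AddChar.map_nsmul_eq_pow, hA, AddChar.map_zero_eq_one]
    have hne : T.Nonempty := ⟨1, by rw [hmemT, one_pow]⟩
    have hb : T.card • ((Ψ.card : ℝ) / m) ≤ Ψ.card := by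
      rw [nsmul_eq_mul]
      have h1 : (T.card : ℝ) ≤ m := Nat.cast_le.mpr hTm
      calc (T.card : ℝ) * ((Ψ.card : ℝ) / m) ≤ m * ((Ψ.card : ℝ) / m) := by gcongr
        _ = Ψ.card := by field_simp
    obtain ⟨ζ, hζ, hfib⟩ := exists_le_card_fiber_of_nsmul_le_card_of_maps_to hmaps hne hb
    rw [hmemT] at hζ
    refine ⟨Function.update z j ζ, fun i => ?_, Ψ.filter (fun ψ => ¬ ψ (g j) = ζ), ?_, ?_⟩
    · by_cases h : i = j
      · subst h; rw [Function.update_self, hζ]
      · rw [Function.update_of_ne h, hz]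
    · intro ψ h1
      rw [mem_filter]
      refine ⟨hΨ ψ fun i hi => ?_, ?_⟩
      · have h2 := h1 i (mem_insert_of_mem hi)
        rwa [Function.update_of_ne (by rintro rfl; exact hj hi)] at h2
      · have h2 := h1 j (mem_insert_self j I)
        rwa [Function.update_self] at h2
    · have h2 := Finset.card_filter_add_card_filter_not (s := Ψ) (fun ψ => ψ (g j) = ζ)
      have h3 : ((Ψ.filter (fun ψ => ψ (g j) = ζ)).card : ℝ) +
          ((Ψ.filter (fun ψ => ¬ ψ (g j) = ζ)).card : ℝ) = Ψ.card := by exact_mod_cast h2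
      rw [card_insert_of_notMem hj, pow_succ, ← mul_assoc]
      have h4 : ((Ψ.filter (fun ψ => ¬ ψ (g j) = ζ)).card : ℝ) ≤ Ψ.card * (1 - 1 / (m : ℝ)) := by
        rw [mul_sub, mul_one, mul_one_div]
        linarith
      refine h4.trans (mul_le_mul_of_nonneg_right hcard ?_)
      rw [sub_nonneg, div_le_one hmpos]
      exact_mod_cast hm

theorem dav : S_DAV := by
  classical
  intro G _ _ m hm hG ι _ g hlog
  have hmpos : (0 : ℝ) < m := by exact_mod_cast hm
  have hGpos : (0 : ℝ) < Fintype.card G := by exact_mod_cast Fintype.card_pos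
  obtain ⟨z, hz, Ψ, hΨ, hcard⟩ := greedy (A := Additive G) m hm
    (fun a => by have := hG a.toMul; exact this) (fun i => Additive.ofMul (g i)) univ
  have hz0 : ∀ i, z i ≠ 0 := by
    intro i h
    have h1 := hz i
    rw [h, zero_pow (by omega)] at h1
    exact zero_ne_one h1
  -- no survivors
  have h1 : (Fintype.card G : ℝ) * (1 - 1 / (m : ℝ)) ^ (Fintype.card ι) < 1 := by
    have h2 : (1 - 1 / (m : ℝ)) ≤ Real.exp (-(1 / (m : ℝ))) := by
      have := Real.add_one_le_exp (-(1 / (m : ℝ)))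
      linarith
    have h3 : 0 ≤ (1 - 1 / (m : ℝ)) := by
      rw [sub_nonneg, div_le_one hmpos]
      exact_mod_cast hm
    have h4 : (1 - 1 / (m : ℝ)) ^ (Fintype.card ι) ≤ Real.exp (-(Fintype.card ι / (m : ℝ))) := by
      refine (pow_le_pow_left₀ h3 h2 _).trans (le_of_eq ?_)
      rw [← Real.exp_nat_mul]
      congr 1
      ring
    have h5 : Real.exp (-(Fintype.card ι / (m : ℝ))) < Real.exp (-Real.log (Fintype.card G)) := by
      apply Real.exp_lt_exp.mpr
      rw [neg_lt_neg_iff, lt_div_iff₀ hmpos]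
      linarith
    rw [Real.exp_neg (Real.log _), Real.exp_log hGpos] at h5
    calc (Fintype.card G : ℝ) * (1 - 1 / (m : ℝ)) ^ (Fintype.card ι)
        ≤ Fintype.card G * Real.exp (-(Fintype.card ι / (m : ℝ))) := by gcongr
      _ < Fintype.card G * (Fintype.card G : ℝ)⁻¹ := by gcongr
      _ = 1 := mul_inv_cancel₀ hGpos.ne'
  have h2 : Ψ = ∅ := by
    rw [← card_eq_zero]
    have h3 : (Ψ.card : ℝ) < 1 := by
      refine lt_of_le_of_lt hcard ?_
      rw [Finset.card_univ, Fintype.card_congr (Additive.toMul : Additive G ≃ G)]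
      exact h1
    have h4 : Ψ.card < 1 := by exact_mod_cast h3
    omega
  have h3 : ∀ ψ : AddChar (Additive G) ℂ, ∏ i, (1 + -(z i)⁻¹ * ψ (Additive.ofMul (g i))) = 0 := by
    intro ψ
    have h4 : ¬ ∀ i ∈ (univ : Finset ι), ψ (Additive.ofMul (g i)) ≠ z i := by
      intro h5
      have h6 := hΨ ψ h5
      rw [h2] at h6
      exact notMem_empty _ h6
    push Not at h4
    obtain ⟨i, hi, h5⟩ := h4
    refine Finset.prod_eq_zero hi ?_
    rw [h5, neg_mul, inv_mul_cancel₀ (hz0 i)]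
    ring
  by_contra hcon
  push Not at hcon
  have h4 : ∀ ψ : AddChar (Additive G) ℂ, ∑ S ∈ (univ : Finset ι).powerset,
      (∏ i ∈ S, -(z i)⁻¹) * ψ (∑ i ∈ S, Additive.ofMul (g i)) = 0 := by
    intro ψ
    rw [← h3 ψ, Finset.prod_one_add]
    refine Finset.sum_congr rfl fun S _ => ?_
    rw [Finset.prod_mul_distrib, map_sum_addChar]
  have h5 : ∑ ψ : AddChar (Additive G) ℂ, ∑ S ∈ (univ : Finset ι).powerset,
      (∏ i ∈ S, -(z i)⁻¹) * ψ (∑ i ∈ S, Additive.ofMul (g i)) = 0 :=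
    Finset.sum_eq_zero fun ψ _ => h4 ψ
  rw [Finset.sum_comm] at h5
  have h6 : ∀ S ∈ (univ : Finset ι).powerset, ∑ ψ : AddChar (Additive G) ℂ,
      (∏ i ∈ S, -(z i)⁻¹) * ψ (∑ i ∈ S, Additive.ofMul (g i)) =
      if S = ∅ then (Fintype.card (Additive G) : ℂ) else 0 := by
    intro S _
    rw [← Finset.mul_sum, AddChar.sum_apply_eq_ite]
    by_cases hS : S = ∅
    · subst hS; simp
    · rw [if_neg hS, if_neg, mul_zero]
      intro h
      refine hcon S (Finset.nonempty_iff_ne_empty.mpr hS) ?_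
      have h7 := congrArg Additive.toMul h
      rw [toMul_sum] at h7
      exact h7
  rw [Finset.sum_congr rfl h6, Finset.sum_ite_eq' , if_pos (Finset.empty_mem_powerset _)] at h5
  have h7 : (Fintype.card (Additive G) : ℂ) ≠ 0 := by
    exact_mod_cast Fintype.card_ne_zero
  exact h7 h5

end Pool.Agent.Y37.PSP
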