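import Pool.Agent.Y727.PSP.Stm

/-!
# Bang's theorem: primitive prime divisors of `2 ^ n - 1` (helper37, job 712)
-/

set_option autoImplicit false

namespace Pool.Agent.Y37.PSP

open Polynomial

theorem root_mod {n q : ℕ} (h : (q : ℤ) ∣ (cyclotomic n ℤ).eval 2) :
    IsRoot (cyclotomic n (ZMod q)) 2 := by
  have h1 := eval_intCast_map (Int.castRingHom (ZMod q)) (cyclotomic n ℤ) 2
  rw [map_cyclotomic_int] at h1
  rw [IsRoot.def]
  have h2 : ((2 : ℤ) : ZMod q) = 2 := by norm_cast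
  rw [h2] at h1
  rw [h1]
  have h3 : (((cyclotomic n ℤ).eval 2 : ℤ) : ZMod q) = 0 :=
    (ZMod.intCast_zmod_eq_zero_iff_dvd _ q).2 h
  simpa using h3

theorem order_of_not_dvd {n q : ℕ} (hq : q.Prime) (h : (q : ℤ) ∣ (cyclotomic n ℤ).eval 2)
    (hqn : ¬ q ∣ n) : orderOf (2 : ZMod q) = n := by
  have := Fact.mk hq
  have : NeZero ((n : ℕ) : ZMod q) := ⟨by rwa [Ne, ZMod.natCast_eq_zero_iff]⟩
  exact (isRoot_cyclotomic_iff.1 (root_mod h)).eq_orderOf.symm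

theorem prim_of_dvd {m a q : ℕ} (hq : q.Prime) (hqm : ¬ q ∣ m)
    (h : (q : ℤ) ∣ (cyclotomic (q ^ a * m) ℤ).eval 2) : IsPrimitiveRoot (2 : ZMod q) m := by
  have := Fact.mk hq
  have : NeZero ((m : ℕ) : ZMod q) := ⟨by rwa [Ne, ZMod.natCast_eq_zero_iff]⟩
  exact isRoot_cyclotomic_prime_pow_mul_iff_of_charP.1 (root_mod h)

theorem odd_of_prim {m q : ℕ} (hq : q.Prime) (hm : m ≠ 0) (h : IsPrimitiveRoot (2 : ZMod q) m) :
    q ≠ 2 := by
  rintro rfl
  have h1 := h.pow_eq_one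
  have h2 : (2 : ZMod 2) = 0 := by decide
  rw [h2, zero_pow hm] at h1
  exact absurd h1 (by decide)

theorem dvd_sub_one_of_prim {m q : ℕ} (hq : q.Prime) (hm : m ≠ 0)
    (h : IsPrimitiveRoot (2 : ZMod q) m) : m ∣ q - 1 := by
  have := Fact.mk hq
  have h0 : (2 : ZMod q) ≠ 0 := by
    intro h2
    have h1 := h.pow_eq_one
    rw [h2, zero_pow hm] at h1
    exact zero_ne_one h1
  rw [h.eq_orderOf]
  exact orderOf_dvd_of_pow_eq_one (ZMod.pow_card_sub_one_eq_one h0)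

theorem cyc_pow (m q : ℕ) (hq : q.Prime) (x : ℝ) : ∀ a : ℕ,
    (cyclotomic (m * q ^ (a + 1)) ℝ).eval x = (cyclotomic (m * q) ℝ).eval (x ^ q ^ a)
  | 0 => by simp
  | a + 1 => by
    have h1 := cyclotomic_expand_eq_cyclotomic (p := q) (n := m * q ^ (a + 1)) hq
      (Dvd.intro_left (m * q ^ a) (by ring)) ℝ
    have h2 : m * q ^ (a + 1 + 1) = m * q ^ (a + 1) * q := by ring
    rw [h2, ← h1, expand_eval, cyc_pow m q hq (x ^ q) a, ← pow_mul]
    congr 2
    ring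

theorem key_ineq (y q : ℕ) (hy : 2 ≤ y) (hq : 5 ≤ q) : (y + 1) * (q + 1) + 1 ≤ y ^ q := by
  have h1 : ∀ k : ℕ, 3 * (k + 5) + 4 ≤ 2 ^ (k + 5) := by
    intro k
    induction k with
    | zero => norm_num
    | succ k ih =>
      have : 2 ^ (k + 1 + 5) = 2 * 2 ^ (k + 5) := by ring
      omega
  obtain ⟨k, rfl⟩ := Nat.exists_eq_add_of_le' hq
  have h2 := h1 k
  have h3 : y ^ (k + 5) = y * y ^ (k + 4) := by ring
  have h4 : 2 ^ (k + 4) ≤ y ^ (k + 4) := Nat.pow_le_pow_left hy _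
  have h5 : 2 ^ (k + 5) = 2 * 2 ^ (k + 4) := by ring
  have h6 : 3 * (k + 5) + 4 ≤ 2 * y ^ (k + 4) := by omega
  rw [h3]
  nlinarith [Nat.mul_le_mul_left y h6]

theorem size (m q a : ℕ) (hq : q.Prime) (hqm : ¬ q ∣ m) (hm : m ≠ 0)
    (h : (2 ^ q ^ a + 1) * (q + 1) + 1 ≤ (2 ^ q ^ a) ^ q) :
    (q : ℝ) + 1 ≤ (cyclotomic (m * q ^ (a + 1)) ℝ).eval 2 := by
  rw [cyc_pow m q hq 2 a]
  have hy : (2 : ℝ) ≤ 2 ^ q ^ a := by
    have : (2 : ℝ) ^ 1 ≤ 2 ^ q ^ a := by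
      apply pow_le_pow_right₀ (by norm_num)
      exact Nat.one_le_pow _ _ hq.pos
    simpa using this
  have hR : ((2 : ℝ) ^ q ^ a + 1) * (q + 1) + 1 ≤ (2 ^ q ^ a) ^ q := by exact_mod_cast h
  generalize hyy : (2 : ℝ) ^ q ^ a = y at hy hR
  have h1 := congrArg (Polynomial.eval y) (cyclotomic_expand_eq_cyclotomic_mul hq hqm ℝ)
  rw [expand_eval, eval_mul] at h1
  have hyq : (1 : ℝ) < y ^ q := one_lt_pow₀ (by linarith) hq.ne_zero
  have h2 := sub_one_pow_totient_le_cyclotomic_eval hyq m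
  have h3 := cyclotomic_eval_le_add_one_pow_totient (q := y) (by linarith) m
  have h4 := cyclotomic_pos' (m * q) (R := ℝ) (x := y) (by linarith)
  have ht : 1 ≤ m.totient := Nat.totient_pos.2 (Nat.pos_of_ne_zero hm)
  have hqr : (0 : ℝ) ≤ q := Nat.cast_nonneg q
  have h5 : ((y + 1) * (q + 1)) ^ m.totient ≤ (y ^ q - 1) ^ m.totient :=
    pow_le_pow_left₀ (by positivity) (by linarith) _
  have h6 : (q : ℝ) + 1 ≤ ((q : ℝ) + 1) ^ m.totient := by
    have : ((q : ℝ) + 1) ^ 1 ≤ ((q : ℝ) + 1) ^ m.totient :=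
      pow_le_pow_right₀ (by linarith) ht
    simpa using this
  rw [mul_pow] at h5
  have h7 : (0 : ℝ) < (y + 1) ^ m.totient := by positivity
  have h8 : (y + 1) ^ m.totient * ((q : ℝ) + 1) ≤
      (y + 1) ^ m.totient * (cyclotomic (m * q) ℝ).eval y := by
    calc (y + 1) ^ m.totient * ((q : ℝ) + 1) ≤ (y + 1) ^ m.totient * ((q : ℝ) + 1) ^ m.totient :=
          mul_le_mul_of_nonneg_left h6 h7.le
      _ ≤ (y ^ q - 1) ^ m.totient := h5
      _ ≤ eval (y ^ q) (cyclotomic m ℝ) := h2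
      _ = eval y (cyclotomic (m * q) ℝ) * eval y (cyclotomic m ℝ) := h1
      _ ≤ eval y (cyclotomic (m * q) ℝ) * (y + 1) ^ m.totient :=
          mul_le_mul_of_nonneg_left h3 h4.le
      _ = _ := mul_comm _ _
  exact le_of_mul_le_mul_left h8 h7

/-- `q ^ 2` does not divide `Φ_n(2)` when `q ∣ n` -/
theorem sq_not_dvd {m a q : ℕ} (hq : q.Prime) (hm : m ≠ 0)
    (hp : IsPrimitiveRoot (2 : ZMod q) m) :
    ¬ (q : ℤ) ^ 2 ∣ (cyclotomic (m * q ^ (a + 1)) ℤ).eval 2 := by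
  have := Fact.mk hq
  intro hd
  have hq2 := odd_of_prim hq hm hp
  set d := m * q ^ a with hdd
  have hn : m * q ^ (a + 1) = d * q := by rw [hdd]; ring
  have hdpos : 0 < d := Nat.mul_pos (Nat.pos_of_ne_zero hm) (pow_pos hq.pos _)
  have hmem : d ∈ (m * q ^ (a + 1)).properDivisors := by
    rw [Nat.mem_properDivisors, hn]
    exact ⟨Dvd.intro _ rfl, by nlinarith [hq.two_le]⟩
  have h1 := X_pow_sub_one_mul_cyclotomic_dvd_X_pow_sub_one_of_dvd ℤ hmem
  have h2 : ((X ^ d - 1) * cyclotomic (m * q ^ (a + 1)) ℤ).eval (2 : ℤ) ∣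
      (X ^ (m * q ^ (a + 1)) - 1 : ℤ[X]).eval 2 := eval_dvd h1
  simp only [eval_mul, eval_sub, eval_pow, eval_X, eval_one] at h2
  have h3 : ((2 : ℤ) ^ d - 1) * (q : ℤ) ^ 2 ∣ 2 ^ (m * q ^ (a + 1)) - 1 :=
    (mul_dvd_mul_left _ hd).trans h2
  have hd1 : 1 < 2 ^ d := Nat.one_lt_two_pow hdpos.ne'
  have h4 : (2 ^ d - 1) * q ^ 2 ∣ 2 ^ (m * q ^ (a + 1)) - 1 := by
    have e1 : (((2 ^ d - 1) * q ^ 2 : ℕ) : ℤ) = ((2 : ℤ) ^ d - 1) * (q : ℤ) ^ 2 := by
      push_cast [Nat.cast_sub hd1.le]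
      ring
    have e2 : ((2 ^ (m * q ^ (a + 1)) - 1 : ℕ) : ℤ) = (2 : ℤ) ^ (m * q ^ (a + 1)) - 1 := by
      push_cast [Nat.cast_sub (Nat.one_le_two_pow (n := m * q ^ (a + 1)))]
      ring
    rw [← e1, ← e2] at h3
    exact_mod_cast h3
  have hpow : (2 : ZMod q) ^ d = 1 := by
    rw [hdd, pow_mul, hp.pow_eq_one, one_pow]
  have hdvd : q ∣ 2 ^ d - 1 := by
    have h5 : (((2 ^ d - 1 : ℕ)) : ZMod q) = 0 := by
      rw [Nat.cast_sub hd1.le]
      push_cast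
      rw [hpow, sub_self]
    exact (ZMod.natCast_eq_zero_iff _ _).1 h5
  have hndvd : ¬ q ∣ 2 ^ d := by
    intro h
    have := (Nat.prime_dvd_prime_iff_eq hq Nat.prime_two).1 (hq.dvd_of_dvd_pow h)
    exact hq2 this
  have hlte := padicValNat.pow_sub_pow (p := q) (x := 2 ^ d) (y := 1) (hq.odd_of_ne_two hq2) hd1
    hdvd hndvd (n := q) hq.ne_zero
  rw [one_pow, ← pow_mul, ← hn, padicValNat_self] at hlte
  have hne1 : 2 ^ d - 1 ≠ 0 := by omega
  have hne2 : 2 ^ (m * q ^ (a + 1)) - 1 ≠ 0 := by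
    have : 1 < 2 ^ (m * q ^ (a + 1)) := Nat.one_lt_two_pow (by
      have := pow_pos hq.pos (a + 1)
      exact Nat.mul_ne_zero hm this.ne')
    omega
  have h6 : q ^ (padicValNat q (2 ^ d - 1) + 2) ∣ 2 ^ (m * q ^ (a + 1)) - 1 := by
    rw [pow_add]
    exact (mul_dvd_mul_right pow_padicValNat_dvd _).trans h4
  have h7 := (padicValNat_dvd_iff_le hne2).1 h6
  omega

theorem ppd : Pool.Agent.Y727.PSP.S_PPD := by
  intro n hn
  have hc : ((2 : ℕ) : ℤ) = 2 := rfl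
  have hbig := sub_one_lt_natAbs_cyclotomic_eval (n := n) (q := 2) (by omega) (by norm_num)
  have hpos : 0 < (cyclotomic n ℤ).eval (2 : ℤ) := cyclotomic_pos (by omega) 2
  rw [hc] at hbig
  obtain ⟨e, he⟩ : ∃ e : ℕ, (e : ℤ) = (cyclotomic n ℤ).eval (2 : ℤ) :=
    ⟨((cyclotomic n ℤ).eval (2 : ℤ)).natAbs, Int.natAbs_of_nonneg hpos.le⟩
  rw [← he] at hbig
  have he1 : 1 < e := by simpa using hbig
  by_contra hno
  push Not at hno
  -- every prime divisor of `e` divides `n`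
  have hall : ∀ q : ℕ, q.Prime → q ∣ e → q ∣ n := by
    intro q hq hqe
    by_contra hqn
    exact hno q hq (order_of_not_dvd hq (by rw [← he]; exact_mod_cast hqe) hqn)
  -- the structure of `n` at such a prime
  have hstr : ∀ q : ℕ, q.Prime → q ∣ e → ∃ m a : ℕ, n = m * q ^ (a + 1) ∧ m ≠ 0 ∧ ¬ q ∣ m ∧
      IsPrimitiveRoot (2 : ZMod q) m ∧ m ∣ q - 1 ∧ q ≠ 2 := by
    intro q hq hqe
    obtain ⟨a, m, hqm, hnam⟩ := Nat.exists_eq_pow_mul_and_not_dvd (n := n) (by omega) q hq.ne_one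
    have hm : m ≠ 0 := by
      rintro rfl
      exact hqm (dvd_zero q)
    have ha : a ≠ 0 := by
      rintro rfl
      rw [pow_zero, one_mul] at hnam
      exact hqm (hnam ▸ hall q hq hqe)
    obtain ⟨a', rfl⟩ := Nat.exists_eq_succ_of_ne_zero ha
    have hp : IsPrimitiveRoot (2 : ZMod q) m := by
      apply prim_of_dvd (a := a' + 1) hq hqm
      rw [← hnam, ← he]
      exact_mod_cast hqe
    exact ⟨m, a', by rw [hnam, mul_comm], hm, hqm, hp, dvd_sub_one_of_prim hq hm hp,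
      odd_of_prim hq hm hp⟩
  obtain ⟨q, hq, hqe⟩ := Nat.exists_prime_and_dvd (n := e) (by omega)
  have hlt : ∀ p r : ℕ, p.Prime → r.Prime → p ∣ e → r ∣ e → p ≠ r → r < p := by
    intro p r hp hr hpe hre hne
    obtain ⟨m, a, hnm, hm, hpm, -, hdv, -⟩ := hstr p hp hpe
    have h1 := hall r hr hre
    rw [hnm] at h1
    rcases hr.dvd_mul.1 h1 with h2 | h2
    · have := Nat.le_of_dvd (by have := hp.two_le; omega) (h2.trans hdv)
      have := hp.two_le
      omega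
    · exact absurd ((Nat.prime_dvd_prime_iff_eq hr hp).1 (hr.dvd_of_dvd_pow h2)).symm hne
  have huniq : ∀ {d : ℕ}, d.Prime → d ∣ e → d = q := by
    intro d hd hde
    by_contra hne
    have h1 := hlt d q hd hq hde hqe hne
    have h2 := hlt q d hq hd hqe hde (Ne.symm hne)
    omega
  have hpow := Nat.eq_prime_pow_of_unique_prime_dvd (n := e) (p := q) (by omega) huniq
  obtain ⟨m, a, hnm, hm, hqm, hprim, hdv, hq2⟩ := hstr q hq hqe
  have hsq : ¬ q ^ 2 ∣ e := by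
    intro h
    apply sq_not_dvd (a := a) hq hm hprim
    rw [← hnm, ← he]
    exact_mod_cast h
  have heq : e = q := by
    generalize e.primeFactorsList.length = l at hpow
    rcases Nat.lt_or_ge l 2 with h | h
    · interval_cases l
      · rw [pow_zero] at hpow
        omega
      · simpa using hpow
    · exact absurd (hpow ▸ pow_dvd_pow q h) hsq
  have hq3 : 3 ≤ q := by
    have := hq.two_le
    omega
  have hsz : (2 ^ q ^ a + 1) * (q + 1) + 1 ≤ (2 ^ q ^ a) ^ q := by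
    have h4 : q ≠ 4 := by
      rintro rfl
      exact absurd hq (by norm_num)
    rcases Nat.lt_or_ge q 5 with h5 | h5
    · have hq33 : q = 3 := by omega
      subst hq33
      have hm2 : m ≤ 2 := Nat.le_of_dvd (by norm_num) hdv
      have ha : a ≠ 0 := by
        rintro rfl
        simp at hnm
        omega
      have h3a : 3 ≤ 3 ^ a := by
        calc 3 = 3 ^ 1 := by norm_num
          _ ≤ 3 ^ a := Nat.pow_le_pow_right (by norm_num) (by omega)
      have h8 : 8 ≤ 2 ^ 3 ^ a := by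
        calc 8 = 2 ^ 3 := by norm_num
          _ ≤ 2 ^ 3 ^ a := Nat.pow_le_pow_right (by norm_num) h3a
      generalize 2 ^ 3 ^ a = y at h8 ⊢
      have : y ^ 3 = y * y * y := by ring
      rw [this]
      nlinarith [Nat.mul_le_mul h8 h8]
    · apply key_ineq _ _ _ h5
      calc 2 = 2 ^ 1 := by norm_num
        _ ≤ 2 ^ q ^ a := Nat.pow_le_pow_right (by norm_num) (Nat.one_le_pow _ _ hq.pos)
  have hfin := size m q a hq hqm hm hsz
  rw [← hnm] at hfin
  have hcast : (cyclotomic n ℝ).eval 2 = ((e : ℕ) : ℝ) := by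
    have h1 := eval_intCast_map (Int.castRingHom ℝ) (cyclotomic n ℤ) 2
    rw [map_cyclotomic_int] at h1
    have h2 : ((2 : ℤ) : ℝ) = 2 := by norm_num
    have h3 : (((2 : ℤ)) : ℤ) = 2 := rfl
    rw [h2] at h1
    rw [h1]
    show ((Int.castRingHom ℝ) ((cyclotomic n ℤ).eval (2 : ℤ))) = _
    rw [← he]
    simp
  rw [hcast, heq] at hfin
  linarith

end Pool.Agent.Y37.PSP
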